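import Pool.Agent.K1H71.NX.Defs2
import Pool.Agent.Y500.NT2.LowN

/-! PosLB2 for exponents between `1 / (g + 3)` and `1 / (g + 2)` (project NX2, piece POS3). -/

set_option autoImplicit false

namespace Pool.Agent.K1H37.NX2

open Finset Pool.Agent.K1H71.NX Filter
open Pool.Agent.Y500.NT2 (rad_le rad_two_pow primes_ge many_primes)

theorem rad_cast (n : ℕ) : rad ((n : ℕ) : ℤ) = Pool.Agent.H785R2.ABC.rad n := by
  simp only [rad, Pool.Agent.H785R2.ABC.rad, Int.natAbs_natCast]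

/-- the tuple -/
def ff (g j y p : ℕ) (w : Fin g → ℕ) : Fin (g + 2) → ℕ := Fin.cons p (Fin.cons (2 ^ j * y) w)

theorem ff_inj (g j : ℕ) {y p y' p' : ℕ} {w w' : Fin g → ℕ}
    (h : ff g j y p w = ff g j y' p' w') : y = y' ∧ p = p' ∧ w = w' := by
  unfold ff at h
  rw [Fin.cons_inj, Fin.cons_inj] at h
  exact ⟨Nat.eq_of_mul_eq_mul_left (by positivity) h.2.1, h.1, h.2.2⟩

/-- the tuple of integers -/
def gg {g : ℕ} (f : Fin (g + 2) → ℕ) : Fin (g + 2) → ℤ := fun i => (f i : ℤ)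

theorem gg_inj (g : ℕ) : Function.Injective (gg (g := g)) := by
  intro f f' h
  funext i
  have := congrFun h i
  simp only [gg] at this
  exact_mod_cast this

theorem comb (g j Y N K : ℕ) (hY : 1 ≤ Y)
    (hK : ∀ t : ℕ, 1 ≤ t → t ≤ 2 ^ j * (2 * Y) + g * N →
      K ≤ ((Icc 1 N).filter fun p => p.Prime ∧ ¬ p ∣ t).card) :
    ∃ T : Finset (Fin (g + 2) → ℤ),
      (∀ a ∈ T, (∀ i, 0 < a i) ∧ IsCoprime (a 0) (∑ i, a i) ∧
        (∏ i, rad (a i)) * rad (∑ i, a i) ≤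
          ((4 * Y) * N ^ (g + 1)) * (2 ^ j * (2 * Y) + (g + 1) * N) ∧
        ((2 ^ j * Y : ℕ) : ℤ) ≤ ∑ i, a i ∧
        ∑ i, a i ≤ ((2 ^ j * (2 * Y) + (g + 1) * N : ℕ) : ℤ)) ∧
      Y * N ^ g * K ≤ T.card := by
  classical
  set S : Finset (Σ _ : ℕ × (Fin g → ℕ), ℕ) :=
    ((Ico Y (2 * Y)) ×ˢ (Fintype.piFinset fun _ : Fin g => Icc 1 N)).sigma fun q =>
      (Icc 1 N).filter fun p => p.Prime ∧ ¬ p ∣ 2 ^ j * q.1 + ∑ i, q.2 i with hS
  set Φ : (Σ _ : ℕ × (Fin g → ℕ), ℕ) → (Fin (g + 2) → ℤ) :=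
    fun t => gg (ff g j t.1.1 t.2 t.1.2) with hΦ
  have hinj : Function.Injective Φ := by
    rintro ⟨⟨y, w⟩, p⟩ ⟨⟨y', w'⟩, p'⟩ h
    obtain ⟨h1, h2, h3⟩ := ff_inj g j (gg_inj g h)
    dsimp at h1 h2 h3
    subst h1 h2 h3
    rfl
  have hwsum : ∀ w : Fin g → ℕ, (∀ i, w i ≤ N) → ∑ i : Fin g, w i ≤ g * N := by
    intro w hw
    calc ∑ i : Fin g, w i ≤ ∑ _i : Fin g, N := Finset.sum_le_sum fun i _ => hw i
      _ = g * N := by simp
  refine ⟨S.image Φ, ?_, ?_⟩
  · intro z hz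
    obtain ⟨⟨⟨y, w⟩, p⟩, ht, rfl⟩ := Finset.mem_image.1 hz
    rw [hS, Finset.mem_sigma, Finset.mem_product, Fintype.mem_piFinset] at ht
    obtain ⟨⟨hy, hw⟩, hp⟩ := ht
    dsimp only at hy hp hw
    rw [Finset.mem_Ico] at hy
    rw [Finset.mem_filter, Finset.mem_Icc] at hp
    obtain ⟨⟨hp1, hpN⟩, hpp, hpy⟩ := hp
    have hw' : ∀ i, 1 ≤ w i ∧ w i ≤ N := fun i => Finset.mem_Icc.1 (hw i)
    set f := ff g j y p w with hf
    have f0 : f 0 = p := rfl
    have f1 : f (Fin.succ 0) = 2 ^ j * y := rfl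
    have fs : ∀ i : Fin g, f i.succ.succ = w i := fun i => rfl
    have hpos : ∀ i, 1 ≤ f i := by
      intro i
      refine Fin.cases ?_ (fun i => ?_) i
      · rw [f0]; exact hp1
      · refine Fin.cases ?_ (fun i => ?_) i
        · rw [f1]; exact Nat.mul_pos (by positivity) (by omega)
        · rw [fs]; exact (hw' i).1
    have hsum : ∑ i, f i = p + (2 ^ j * y + ∑ i : Fin g, w i) := by
      rw [Fin.sum_univ_succ, Fin.sum_univ_succ]; rfl
    have hws := hwsum w fun i => (hw' i).2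
    have hb1 : 2 ^ j * y ≤ 2 ^ j * (2 * Y) := Nat.mul_le_mul_left _ (by omega)
    have hb2 : 2 ^ j * Y ≤ 2 ^ j * y := Nat.mul_le_mul_left _ hy.1
    have hN1 : (g + 1) * N = N + g * N := by ring
    have hsumle : ∑ i, f i ≤ 2 ^ j * (2 * Y) + (g + 1) * N := by
      rw [hsum]
      omega
    have hgg : Φ ⟨⟨y, w⟩, p⟩ = gg f := rfl
    have hsumZ : ∑ i, gg f i = ((∑ i, f i : ℕ) : ℤ) := by
      simp only [gg]
      push_cast
      rfl
    rw [hgg]
    refine ⟨?_, ?_, ?_, ?_, ?_⟩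
    · intro i
      have := hpos i
      simp only [gg]
      exact_mod_cast this
    · rw [hsumZ]
      have h1 : gg f 0 = ((p : ℕ) : ℤ) := rfl
      rw [h1, Nat.isCoprime_iff_coprime]
      refine (Nat.Prime.coprime_iff_not_dvd hpp).2 fun h => hpy ?_
      rw [hsum] at h
      exact (Nat.dvd_add_right (dvd_refl p)).1 h
    · rw [hsumZ, rad_cast]
      have hr : ∀ i, rad (gg f i) = Pool.Agent.H785R2.ABC.rad (f i) := fun i => rad_cast (f i)
      simp only [hr]
      have h1 : ∏ i, Pool.Agent.H785R2.ABC.rad (f i) ≤ (4 * Y) * N ^ (g + 1) := by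
        rw [Fin.prod_univ_succ, Fin.prod_univ_succ]
        have e0 : Pool.Agent.H785R2.ABC.rad (f (Fin.succ 0)) ≤ 4 * Y := by
          rw [f1]
          exact (rad_two_pow j y (by omega)).trans (by omega)
        have e1 : Pool.Agent.H785R2.ABC.rad (f 0) ≤ N := (rad_le hp1).trans hpN
        have e2 : ∏ i : Fin g, Pool.Agent.H785R2.ABC.rad (f i.succ.succ) ≤ N ^ g := by
          calc ∏ i : Fin g, Pool.Agent.H785R2.ABC.rad (f i.succ.succ) ≤ ∏ _i : Fin g, N :=
                Finset.prod_le_prod' fun i _ => (rad_le (hw' i).1).trans (hw' i).2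
            _ = N ^ g := by simp
        calc Pool.Agent.H785R2.ABC.rad (f 0) * (Pool.Agent.H785R2.ABC.rad (f (Fin.succ 0)) *
              ∏ i : Fin g, Pool.Agent.H785R2.ABC.rad (f i.succ.succ)) ≤
              N * ((4 * Y) * N ^ g) := Nat.mul_le_mul e1 (Nat.mul_le_mul e0 e2)
          _ = _ := by ring
      refine Nat.mul_le_mul h1 ?_
      refine (rad_le ?_).trans hsumle
      exact (hpos 0).trans (Finset.single_le_sum (fun i _ => Nat.zero_le _) (Finset.mem_univ 0))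
    · rw [hsumZ]
      have : 2 ^ j * Y ≤ ∑ i, f i := by rw [hsum]; omega
      exact_mod_cast this
    · rw [hsumZ]
      exact_mod_cast hsumle
  · rw [Finset.card_image_of_injective _ hinj, hS, Finset.card_sigma]
    have h2 : (Fintype.piFinset fun _ : Fin g => Icc 1 N).card = N ^ g := by
      rw [Fintype.card_piFinset]; simp
    calc Y * N ^ g * K = ∑ _q ∈ (Ico Y (2 * Y)) ×ˢ (Fintype.piFinset fun _ : Fin g => Icc 1 N),
          K := by
          rw [Finset.sum_const, Finset.card_product, Nat.card_Ico, smul_eq_mul, h2]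
          congr 2; omega
      _ ≤ _ := by
          refine Finset.sum_le_sum fun q hq => hK _ ?_ ?_
          · rw [Finset.mem_product, Finset.mem_Ico] at hq
            have h3 : 0 < 2 ^ j * q.1 := Nat.mul_pos (by positivity) (by omega)
            omega
          · rw [Finset.mem_product, Finset.mem_Ico, Fintype.mem_piFinset] at hq
            have h3 : 2 ^ j * q.1 ≤ 2 ^ j * (2 * Y) := Nat.mul_le_mul_left _ (by omega)
            have h4 := hwsum q.2 fun i => (Finset.mem_Icc.1 (hq.2 i)).2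
            omega

theorem t_POS3 : S_POS3 := by
  intro g κ δ hκ1 hκ2 hδ K₀ hK₀
  have hg0 : (0 : ℝ) ≤ g := Nat.cast_nonneg g
  have hκ0 : 0 < κ := lt_of_lt_of_le (by positivity) hκ1
  have hκ1' : 1 ≤ κ * ((g : ℝ) + 3) := by
    rwa [div_le_iff₀ (by positivity)] at hκ1
  have hκ2' : κ * ((g : ℝ) + 2) < 1 := by
    rwa [lt_div_iff₀ (by positivity)] at hκ2
  have hκh : κ < 1 / 2 := by nlinarith
  set K' : ℝ := max K₀ 1 with hK'
  have hK'1 : 1 ≤ K' := le_max_right _ _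
  have hK'0 : K₀ ≤ K' := le_max_left _ _
  have hK'pos : 0 < K' := by linarith
  have hKp : 1 ≤ K' ^ (g + 2) := one_le_pow₀ hK'1
  set C : ℝ := ((g : ℝ) + 1) + 40 * K' ^ (g + 2) with hC
  have hC41 : 41 ≤ C := by rw [hC]; linarith
  have hCk : (g : ℝ) + 1 ≤ C := by rw [hC]; linarith
  have hCK : 40 * K' ^ (g + 2) ≤ C := by rw [hC]; linarith
  have hC0 : 0 < C := by linarith
  have hev : ∀ᶠ X : ℝ in atTop, 16 ≤ X ∧ 5 * K' ≤ 2 * X ^ (1 - κ) ∧
      2 * Real.log X ≤ X ^ δ ∧ 4 * C ≤ X ^ κ ∧ 64 * C * Real.log X ^ 2 ≤ X ^ κ := by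
    have e1 : ∀ᶠ X : ℝ in atTop, (16 : ℝ) ≤ X := eventually_ge_atTop _
    have e2 : ∀ᶠ X : ℝ in atTop, 5 * K' / 2 ≤ X ^ (1 - κ) :=
      (tendsto_rpow_atTop (by linarith)).eventually_ge_atTop _
    have e4 : ∀ᶠ X : ℝ in atTop, 2 * Real.log X ≤ X ^ δ := by
      have h1 := (isLittleO_log_rpow_atTop hδ).bound (by norm_num : (0 : ℝ) < 1 / 2)
      filter_upwards [h1, eventually_ge_atTop 1] with X h2 h3
      rw [Real.norm_of_nonneg (Real.log_nonneg h3),
        Real.norm_of_nonneg (Real.rpow_nonneg (by linarith) _)] at h2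
      linarith
    have e5 : ∀ᶠ X : ℝ in atTop, 4 * C ≤ X ^ κ := (tendsto_rpow_atTop hκ0).eventually_ge_atTop _
    have e6 : ∀ᶠ X : ℝ in atTop, 64 * C * Real.log X ^ 2 ≤ X ^ κ := by
      have h1 := (isLittleO_log_rpow_atTop (by positivity : 0 < κ / 2)).bound
        (by positivity : (0 : ℝ) < √(1 / (64 * C)))
      filter_upwards [h1, eventually_ge_atTop 1] with X h2 h3
      have hX0 : (0 : ℝ) ≤ X := by linarith
      rw [Real.norm_of_nonneg (Real.log_nonneg h3),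
        Real.norm_of_nonneg (Real.rpow_nonneg hX0 _)] at h2
      have h4 : Real.log X ^ 2 ≤ (√(1 / (64 * C)) * X ^ (κ / 2)) ^ 2 :=
        pow_le_pow_left₀ (Real.log_nonneg h3) h2 2
      rw [mul_pow, Real.sq_sqrt (by positivity), ← Real.rpow_natCast, ← Real.rpow_natCast,
        ← Real.rpow_mul hX0] at h4
      have h5 : κ / 2 * ((2 : ℕ) : ℝ) = κ := by push_cast; ring
      rw [h5] at h4
      rw [Real.rpow_natCast] at h4
      calc 64 * C * Real.log X ^ 2 ≤ 64 * C * (1 / (64 * C) * X ^ κ) := by gcongr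
        _ = X ^ κ := by field_simp
    filter_upwards [e1, e2, e4, e5, e6] with X h1 h2 h4 h5 h6
    exact ⟨h1, by linarith, h4, h5, h6⟩
  obtain ⟨X₀, hX₀⟩ := eventually_atTop.1 hev
  refine ⟨(K' / (2 * C)) ^ (g + 1), 5 * K', X₀, by positivity, by positivity, fun X hX => ?_⟩
  obtain ⟨x1, x2, x4, x5, x6⟩ := hX₀ X hX
  have hX1 : 1 ≤ X := by linarith
  have hX0 : 0 < X := by linarith
  have hXκ : 0 < X ^ κ := Real.rpow_pos_of_pos hX0 _
  set H : ℝ := K' * X ^ κ with hH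
  have hH0 : 0 < H := by positivity
  have hsH : X ^ κ ≤ H := le_mul_of_one_le_left hXκ.le hK'1
  have h5HX : 5 * H ≤ 2 * X := by
    have h1 : X ^ (1 - κ) * X ^ κ = X := by
      rw [← Real.rpow_add hX0, sub_add_cancel, Real.rpow_one]
    calc 5 * H = (5 * K') * X ^ κ := by rw [hH]; ring
      _ ≤ (2 * X ^ (1 - κ)) * X ^ κ := by gcongr
      _ = 2 * X := by rw [mul_assoc, h1]
  have hHX : H ≤ X := by linarith
  set P : ℝ := X ^ (1 - κ * ((g : ℝ) + 2)) with hP
  have hP1 : 1 ≤ P := Real.one_le_rpow hX1 (by linarith)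
  have hPH : P ≤ H := (Real.rpow_le_rpow_of_exponent_le hX1 (by nlinarith)).trans hsH
  have hPHX : P * H ^ (g + 2) = K' ^ (g + 2) * X := by
    rw [hP, hH, mul_pow, ← Real.rpow_natCast (X ^ κ), ← Real.rpow_mul hX0.le, mul_left_comm,
      ← Real.rpow_add hX0]
    push_cast
    rw [show 1 - κ * ((g : ℝ) + 2) + κ * ((g : ℝ) + 2) = 1 by ring, Real.rpow_one]
  -- the natural numbers
  set Y : ℕ := ⌈P⌉₊ with hY
  have hPY : P ≤ Y := Nat.le_ceil P
  have hY2P : (Y : ℝ) ≤ 2 * P := by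
    have := Nat.ceil_lt_add_one (by linarith : 0 ≤ P)
    linarith
  have hY1 : 1 ≤ Y := by
    have : (1 : ℝ) ≤ Y := hP1.trans hPY
    exact_mod_cast this
  obtain ⟨j, hj1, hj2⟩ : ∃ j : ℕ, H ≤ 2 ^ j * (Y : ℝ) ∧ 2 ^ j * (Y : ℝ) ≤ 2 * H := by
    have hex : ∃ j : ℕ, H ≤ 2 ^ j * (Y : ℝ) := by
      obtain ⟨j, hj⟩ := pow_unbounded_of_one_lt H (by norm_num : (1 : ℝ) < 2)
      refine ⟨j, hj.le.trans ?_⟩
      have : (1 : ℝ) ≤ Y := by exact_mod_cast hY1
      nlinarith [pow_pos (by norm_num : (0 : ℝ) < 2) j]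
    classical
    refine ⟨Nat.find hex, Nat.find_spec hex, ?_⟩
    rcases Nat.eq_zero_or_pos (Nat.find hex) with h0 | h0
    · rw [h0]; linarith
    · obtain ⟨i, hi⟩ : ∃ i, Nat.find hex = i + 1 := ⟨Nat.find hex - 1, by omega⟩
      have h1 := Nat.find_min hex (m := i) (by omega)
      rw [hi, pow_succ]
      push Not at h1
      linarith
  set N : ℕ := ⌊H / C⌋₊ with hN
  have hNle : (N : ℝ) ≤ H / C := Nat.floor_le (by positivity)
  have h4C : 4 * C ≤ H := x5.trans hsH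
  have hNge : H / (2 * C) ≤ N := by
    have h1 := Nat.lt_floor_add_one (H / C)
    have h2 : 1 ≤ H / (2 * C) := by rw [le_div_iff₀ (by positivity)]; linarith
    have h3 : H / C = H / (2 * C) + H / (2 * C) := by field_simp; ring
    rw [← hN] at h1
    linarith
  have hN2 : 2 ≤ N := by
    have h2 : 2 ≤ H / (2 * C) := by rw [le_div_iff₀ (by positivity)]; linarith
    have : (2 : ℝ) ≤ N := h2.trans hNge
    exact_mod_cast this
  have hCH : H / C ≤ H := div_le_self hH0.le (by linarith)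
  have hNX : (N : ℝ) ≤ X := hNle.trans (hCH.trans hHX)
  have hNlog : 32 * Real.log X ^ 2 ≤ N := by
    refine le_trans ?_ hNge
    rw [le_div_iff₀ (by positivity)]
    calc 32 * Real.log X ^ 2 * (2 * C) = 64 * C * Real.log X ^ 2 := by ring
      _ ≤ X ^ κ := x6
      _ ≤ H := hsH
  set B : ℕ := 2 ^ j * (2 * Y) + (g + 1) * N with hB
  have hbig : (B : ℝ) ≤ 5 * H := by
    rw [hB]
    push_cast
    have h1 : ((g : ℝ) + 1) * N ≤ H := by
      calc ((g : ℝ) + 1) * N ≤ C * (H / C) := by gcongr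
        _ = H := by field_simp
    nlinarith
  have hB1 : 1 ≤ B := by
    have : 0 < 2 ^ j * (2 * Y) := by positivity
    omega
  set K : ℕ := N.primeCounting - Nat.log 2 (4 * B) with hK
  have hKge : (N : ℝ) ≤ (K : ℝ) * (2 * Real.log X) :=
    many_primes X N B x1 hN2 hNX hB1 (by linarith) hNlog
  obtain ⟨T, hT1, hT2⟩ := comb g j Y N K hY1 (by
    intro t ht1 ht2
    have h1 := primes_ge N t ht1
    have hN1 : (g + 1) * N = N + g * N := by ring
    have h2 : Nat.log 2 t ≤ Nat.log 2 (4 * B) := Nat.log_mono_right (by omega)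
    omega)
  refine ⟨T, fun z hz => ?_, ?_⟩
  · obtain ⟨g1, g2, g3, g4, g5⟩ := hT1 z hz
    refine ⟨g1, g2, ?_, ?_, ?_⟩
    · have h1 : (((∏ i, rad (z i)) * rad (∑ i, z i) : ℕ) : ℝ) ≤
          ((((4 * Y) * N ^ (g + 1)) * B : ℕ) : ℝ) := by
        exact_mod_cast g3
      have h2 : (((∏ i, rad (z i)) * rad (∑ i, z i) : ℕ) : ℝ) =
          (∏ i, (rad (z i) : ℝ)) * (rad (∑ i, z i) : ℝ) := by
        push_cast; rfl
      rw [← h2]
      refine h1.trans ?_
      rw [Nat.cast_mul, Nat.cast_mul, Nat.cast_mul, Nat.cast_pow]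
      calc ((4 : ℕ) : ℝ) * (Y : ℝ) * (N : ℝ) ^ (g + 1) * (B : ℝ) ≤
            4 * (2 * P) * (H / C) ^ (g + 1) * (5 * H) := by
            push_cast
            gcongr
        _ = (40 / C ^ (g + 1)) * (P * H ^ (g + 2)) := by
            rw [div_pow]; field_simp; ring
        _ = (40 * K' ^ (g + 2) / C ^ (g + 1)) * X := by
            rw [hPHX]; ring
        _ ≤ 1 * X := by
            gcongr
            rw [div_le_one (by positivity)]
            calc 40 * K' ^ (g + 2) ≤ C := hCK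
              _ = C ^ 1 := (pow_one C).symm
              _ ≤ C ^ (g + 1) := pow_le_pow_right₀ (by linarith) (by omega)
        _ = X := one_mul X
    · have : (((2 ^ j * Y : ℕ) : ℤ) : ℝ) ≤ ((∑ i, z i : ℤ) : ℝ) := Int.cast_le.2 g4
      refine le_trans ?_ this
      push_cast
      calc K₀ * X ^ κ ≤ K' * X ^ κ := by gcongr
        _ ≤ _ := hj1
    · have : ((∑ i, z i : ℤ) : ℝ) ≤ ((B : ℤ) : ℝ) := Int.cast_le.2 g5
      refine this.trans ?_
      rw [Int.cast_natCast, mul_assoc]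
      exact hbig
  · have h1 : ((Y * N ^ g * K : ℕ) : ℝ) ≤ (T.card : ℝ) := by exact_mod_cast hT2
    refine le_trans ?_ h1
    push_cast
    have hlog0 : 0 < 2 * Real.log X := by
      have := Real.log_pos (by linarith : 1 < X)
      linarith
    have hXd : 0 < X ^ δ := Real.rpow_pos_of_pos hX0 _
    have hK1 : (N : ℝ) / X ^ δ ≤ K := by
      rw [div_le_iff₀ hXd]
      refine hKge.trans ?_
      gcongr
    have e1 : (K' / (2 * C)) ^ (g + 1) * X ^ (1 - κ - δ) = P * (H / (2 * C)) ^ (g + 1) / X ^ δ := by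
      have e2 : X ^ (1 - κ - δ) = P * (X ^ κ) ^ (g + 1) / X ^ δ := by
        rw [hP, ← Real.rpow_natCast (X ^ κ), ← Real.rpow_mul hX0.le, ← Real.rpow_add hX0,
          ← Real.rpow_sub hX0]
        congr 1
        push_cast
        ring
      rw [e2, hH, div_pow, div_pow, mul_pow]
      ring
    rw [e1]
    calc P * (H / (2 * C)) ^ (g + 1) / X ^ δ ≤ Y * (N : ℝ) ^ (g + 1) / X ^ δ := by gcongr
      _ = Y * (N : ℝ) ^ g * ((N : ℝ) / X ^ δ) := by rw [pow_succ]; ring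
      _ ≤ Y * (N : ℝ) ^ g * K := by gcongr

end Pool.Agent.K1H37.NX2
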